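import Pool.Agent.H918R2.Quad.Stubs3

/-! TASK P2 of `h918_tasks`: the fraction field of a Dedekind domain. -/

set_option autoImplicit false

namespace Pool.Agent.H613R2.Quad

open Pool.Agent.H918R2.Quad

theorem chart_away {O K : Type} [CommRing O] [IsDomain O] [Field K] [Algebra O K]
    [IsFractionRing O K] (f' : O) (hf' : f' ≠ 0) :
    IsLocalization.Away f' (chart O (Submodule.span O {(1 : K)}) (algebraMap O K f')) := by
  set S := chart O (Submodule.span O {(1 : K)}) (algebraMap O K f') with hS
  have hinj : Function.Injective (algebraMap O K) := IsFractionRing.injective O K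
  have hf : algebraMap O K f' ≠ 0 := by
    rw [Ne, map_eq_zero_iff _ hinj]; exact hf'
  have hinv : (algebraMap O K f')⁻¹ ∈ S := by
    refine Algebra.subset_adjoin ⟨1, Submodule.mem_span_singleton_self 1, ?_⟩
    rw [one_div]
  rw [IsLocalization.Away, isLocalization_iff]
  refine ⟨?_, ?_, ?_⟩
  · rintro ⟨y, n, rfl⟩
    simp only [map_pow]
    refine IsUnit.pow n ?_
    refine IsUnit.of_mul_eq_one (⟨_, hinv⟩ : S) ?_
    apply Subtype.ext
    change algebraMap O K f' * (algebraMap O K f')⁻¹ = 1
    exact mul_inv_cancel₀ hf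
  · rintro ⟨z, hz⟩
    have key : ∃ (a : O) (n : ℕ), z * algebraMap O K (f' ^ n) = algebraMap O K a := by
      refine Algebra.adjoin_induction (p := fun z _ => ∃ (a : O) (n : ℕ),
        z * algebraMap O K (f' ^ n) = algebraMap O K a) ?_ ?_ ?_ ?_ hz
      · rintro x ⟨m, hm, rfl⟩
        obtain ⟨a, rfl⟩ := Submodule.mem_span_singleton.1 hm
        refine ⟨a, 1, ?_⟩
        rw [pow_one, div_mul_cancel₀ _ hf, Algebra.smul_def, mul_one]
      · intro r
        exact ⟨r, 0, by simp⟩
      · rintro x y _ _ ⟨a, n, ha⟩ ⟨b, m, hb⟩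
        refine ⟨a * f' ^ m + b * f' ^ n, n + m, ?_⟩
        rw [map_add, map_mul, map_mul, ← ha, ← hb, pow_add, map_mul]
        ring
      · rintro x y _ _ ⟨a, n, ha⟩ ⟨b, m, hb⟩
        refine ⟨a * b, n + m, ?_⟩
        rw [map_mul, ← ha, ← hb, pow_add, map_mul]
        ring
    obtain ⟨a, n, h⟩ := key
    refine ⟨⟨a, ⟨f' ^ n, n, rfl⟩⟩, ?_⟩
    apply Subtype.ext
    exact h
  · intro x y h
    refine ⟨1, ?_⟩
    have h2 : algebraMap O K x = algebraMap O K y := congrArg Subtype.val h
    rw [hinj h2]

/-- TASK P2. The fraction field of a Dedekind domain. -/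
theorem hasModule_frac {O K : Type} [CommRing O] [IsDedekindDomain O] [Field K] [Algebra O K]
    [IsFractionRing O K] : HasModule O K := by
  classical
  have hinj : Function.Injective (algebraMap O K) := IsFractionRing.injective O K
  refine ⟨Submodule.span O {(1 : K)}, Submodule.fg_span_singleton 1,
    ⟨1, Submodule.mem_span_singleton_self 1, one_ne_zero⟩, ?_, ?_⟩
  · intro f _ _ y
    obtain ⟨a, b, hb, rfl⟩ := IsFractionRing.div_surjective (A := O) y
    refine ⟨algebraMap O K a, ?_, algebraMap O K b, ?_, ?_, rfl⟩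
    · exact Subalgebra.algebraMap_mem _ a
    · exact Subalgebra.algebraMap_mem _ b
    · rw [Ne, map_eq_zero_iff _ hinj]
      exact nonZeroDivisors.ne_zero hb
  · intro f hf hf0 q hq
    obtain ⟨f', rfl⟩ := Submodule.mem_span_singleton.1 hf
    have hf' : f' ≠ 0 := by
      rintro rfl
      exact hf0 (zero_smul _ _)
    have e : (f' • (1 : K)) = algebraMap O K f' := by
      rw [Algebra.smul_def, mul_one]
    revert q hq
    rw [e]
    intro q hq
    have := chart_away (K := K) f' hf'
    have hle : Submonoid.powers f' ≤ nonZeroDivisors O :=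
      powers_le_nonZeroDivisors_of_noZeroDivisors hf'
    have : IsDomain (chart O (Submodule.span O {(1 : K)}) (algebraMap O K f')) := inferInstance
    have : IsDedekindDomain (chart O (Submodule.span O {(1 : K)}) (algebraMap O K f')) :=
      IsLocalization.isDedekindDomain O hle _
    infer_instance

end Pool.Agent.H613R2.Quad
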